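import Mathlib

namespace Pool.Agent.Results.MP_890ea4_an.Counter

open Filter Topology Set
open scoped ENNReal Classical

/-- Lower `m_n`-density, valued in `[0,∞]`. -/
noncomputable def lowDens (m : ℕ → ℝ) (A : Set ℕ) : ℝ≥0∞ :=
  liminf (fun n : ℕ => (((Finset.Icc 1 ⌊m n⌋₊).filter (· ∈ A)).card : ℝ≥0∞) / n) atTop

/-- `m_n`-distributional chaos. -/
def MDC {X : Type} [NormedAddCommGroup X] [NormedSpace ℝ X] (m : ℕ → ℝ) (T : X →L[ℝ] X) : Prop :=
  ∃ S : Set X, ¬ S.Countable ∧ ∃ σ > 0, ∀ ε > 0, ∀ x ∈ S, ∀ y ∈ S, x ≠ y →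
    lowDens m {j | dist ((T ^ j) x) ((T ^ j) y) < σ} = 0 ∧
    lowDens m {j | ε ≤ dist ((T ^ j) x) ((T ^ j) y)} = 0

noncomputable abbrev X := lp (fun _ : ℕ => ℝ × ℝ) 1

lemma hs1 (x : X) : HasSum (fun i => ‖x i‖) ‖x‖ := by
  simpa using lp.hasSum_norm (p := 1) (by simp) x

noncomputable def p (i : ℕ) : ℝ := 2 ^ (5 * i ^ 2 + i)
noncomputable def ph (i j : ℕ) : ℝ := Real.exp (-(j / p i)) * (1 + 16 ^ i * (j / p i))
noncomputable def B (i j : ℕ) (v : ℝ × ℝ) : ℝ × ℝ :=
  (Real.exp (-(j / p i)) * (v.1 + 16 ^ i * (j / p i) * v.2), Real.exp (-(j / p i)) * v.2)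

lemma p0 (i : ℕ) : 0 < p i := by unfold p; positivity

lemma B_le (i j : ℕ) (v : ℝ × ℝ) : ‖B i j v‖ ≤ ph i j * ‖v‖ := by
  have := p0 i
  have h1 := norm_fst_le v
  have h2 := norm_snd_le v
  have h3 : (0 : ℝ) ≤ 16 ^ i * (j / p i) := by positivity
  rw [Prod.norm_def (B i j v), max_le_iff, B, ph, norm_mul, norm_mul,
    Real.norm_of_nonneg (Real.exp_pos _).le, mul_assoc (Real.exp _)]
  constructor
  · refine mul_le_mul_of_nonneg_left ((norm_add_le _ _).trans ?_) (Real.exp_pos _).le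
    rw [norm_mul, Real.norm_of_nonneg h3]
    nlinarith
  · refine mul_le_mul_of_nonneg_left ?_ (Real.exp_pos _).le
    nlinarith [norm_nonneg v]

lemma ph1 (i j : ℕ) (h : (16 : ℝ) ^ i * j ≤ p i) : ph i j ≤ 2 := by
  have := p0 i
  have h1 : Real.exp (-(j / p i)) ≤ 1 := Real.exp_le_one_iff.2 (neg_nonpos.2 (by positivity))
  have h2 : 16 ^ i * (j / p i) ≤ 1 := by rwa [← mul_div_assoc, div_le_one this]
  unfold ph
  nlinarith [Real.exp_pos (-(j / p i))]

lemma ph2 (i j : ℕ) (hj : 0 < j) : ph i j ≤ 3 * 16 ^ i * p i / j := by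
  have := p0 i
  have ht : 0 < j / p i := by positivity
  rw [ph, mul_div_assoc, ← inv_div (j : ℝ) (p i)]
  set t := j / p i
  have h1 := Real.quadratic_le_exp_of_nonneg ht.le
  have h2 : (1 : ℝ) ≤ 16 ^ i := one_le_pow₀ (by norm_num)
  rw [Real.exp_neg, ← div_eq_inv_mul, ← div_eq_mul_inv, div_le_div_iff₀ (Real.exp_pos _) ht]
  nlinarith [mul_le_mul_of_nonneg_left h1 (zero_le_one.trans h2), mul_pos ht ht]

lemma pw {a b : ℕ} (h : a ≤ b) : (2 : ℝ) ^ a ≤ 2 ^ b := pow_le_pow_right₀ one_le_two h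

lemma B1 (v : X) (i : ℕ) : ‖B i 1 (v i)‖ ≤ ‖((2 : ℝ) • v) i‖ := by
  rw [lp.coeFn_smul, Pi.smul_apply, norm_smul, Real.norm_two]
  refine (B_le _ _ _).trans (mul_le_mul_of_nonneg_right (ph1 _ _ ?_) (norm_nonneg _))
  rw [show (16 : ℝ) = 2 ^ 4 by norm_num, ← pow_mul, Nat.cast_one, mul_one]
  exact pw (by nlinarith [Nat.le_self_pow two_ne_zero i])

noncomputable def T0 : X →ₗ[ℝ] X where
  toFun v := ⟨fun i => B i 1 (v i), (lp.memℓp ((2 : ℝ) • v)).mono' (B1 v)⟩
  map_add' v w := by ext i <;> simp [B] <;> ring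
  map_smul' c v := by ext i <;> simp [B] <;> ring

noncomputable def T : X →L[ℝ] X := T0.mkContinuous 2 fun v =>
  (lp.norm_mono (by simp) (B1 v)).trans (by rw [norm_smul, Real.norm_two])

lemma Tpow (j : ℕ) (v : X) (i : ℕ) : (T ^ j) v i = B i j (v i) := by
  induction j with
  | zero => simp [B]
  | succ j ih =>
    rw [pow_succ', ContinuousLinearMap.mul_apply]
    show B i 1 ((T ^ j) v i) = _
    rw [ih]
    simp only [B, Nat.cast_one, Nat.cast_add, add_div, neg_add, Real.exp_add]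
    ext <;> simp only <;> ring

def M (n : ℕ) : ℕ := 2 ^ (5 * n ^ 2 + 6 * n)

lemma gap (n j i : ℕ) (h1 : M n ≤ j) (h2 : j ≤ 2 ^ n * M n) :
    ph i j ≤ 3 ∧ ph i j * (1 / 4) ^ i ≤ 3 * (1 / 2) ^ n * (1 / 2) ^ i := by
  have h1' : (2 : ℝ) ^ (5 * n ^ 2 + 6 * n) ≤ j := by exact_mod_cast h1
  have h2' : (j : ℝ) ≤ 2 ^ n * 2 ^ (5 * n ^ 2 + 6 * n) := by exact_mod_cast h2
  have e : (1 / 4 : ℝ) ^ i = (1 / 2) ^ i * (1 / 2) ^ i := by rw [← mul_pow]; norm_num
  have hi : (1 / 2 : ℝ) ^ i ≤ 1 := pow_le_one₀ (by norm_num) (by norm_num)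
  have hn : (1 / 2 : ℝ) ^ n ≤ 1 := pow_le_one₀ (by norm_num) (by norm_num)
  rw [e, ← mul_assoc]
  rcases le_or_gt i n with h | h
  · have hj : (0 : ℝ) < j := lt_of_lt_of_le (by positivity) h1'
    have : ph i j ≤ 3 * (1 / 2) ^ n := by
      refine (ph2 i j (by exact_mod_cast hj)).trans ?_
      rw [div_le_iff₀ hj, mul_assoc, mul_assoc, one_div, inv_pow, ← div_eq_inv_mul]
      gcongr
      rw [le_div_iff₀ (by positivity), p, show (16 : ℝ) = 2 ^ 4 by norm_num, ← pow_mul,
        ← pow_add, ← pow_add]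
      exact (pw (by nlinarith [Nat.pow_le_pow_left h 2])).trans h1'
    refine ⟨by linarith, mul_le_mul_of_nonneg_right ?_ (by positivity)⟩
    nlinarith [pow_pos (show (0 : ℝ) < 1 / 2 by norm_num) n, pow_pos (show (0 : ℝ) < 1 / 2 by norm_num) i]
  · have : ph i j ≤ 2 := by
      refine ph1 _ _ ((mul_le_mul_of_nonneg_left h2' (by positivity)).trans ?_)
      rw [p, show (16 : ℝ) = 2 ^ 4 by norm_num, ← pow_mul, ← pow_add, ← pow_add]
      obtain ⟨k, rfl⟩ := Nat.exists_eq_add_of_lt h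
      exact pw (by nlinarith [Nat.zero_le (k ^ 2), Nat.zero_le (n * k)])
    refine ⟨by linarith, mul_le_mul_of_nonneg_right ?_ (by positivity)⟩
    have : (1 / 2 : ℝ) ^ i ≤ (1 / 2) ^ n := pow_le_pow_of_le_one (by norm_num) (by norm_num) h.le
    nlinarith [pow_pos (show (0 : ℝ) < 1 / 2 by norm_num) i]

lemma lz (A : Set ℕ) (L : ℕ → ℕ) (hL : ∀ i, 1 ≤ L i)
    (h : ∀ᶠ i in atTop, ∀ j ∈ A, j ≤ 2 ^ i * L i → j ≤ L i) : lowDens (fun n => n) A = 0 := by
  refine le_antisymm (le_of_forall_gt_imp_ge_of_dense fun e he => ?_) zero_le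
  refine liminf_le_of_frequently_le' (frequently_atTop.2 fun a => ?_)
  obtain ⟨i, ⟨h1, h2⟩, h3⟩ := ((h.and (eventually_ge_atTop a)).and
    ((ENNReal.tendsto_pow_atTop_nhds_zero_of_lt_one (r := 2⁻¹) (by norm_num)).eventually
      (gt_mem_nhds he))).exists
  refine ⟨2 ^ i * L i, by nlinarith [i.lt_two_pow_self, hL i], le_trans ?_ h3.le⟩
  have hc : ((Finset.Icc 1 ⌊((2 ^ i * L i : ℕ) : ℝ)⌋₊).filter (· ∈ A)).card ≤ L i := by
    refine (Finset.card_le_card (t := Finset.Icc 1 (L i)) fun j hj => ?_).trans (by simp)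
    simp only [Nat.floor_natCast, Finset.mem_filter, Finset.mem_Icc] at hj ⊢
    exact ⟨hj.1.1, h1 j hj.2 hj.1.2⟩
  refine ENNReal.div_le_of_le_mul (le_trans (Nat.cast_le.2 hc) (le_of_eq ?_))
  push_cast
  rw [← mul_assoc, ← mul_pow, ENNReal.inv_mul_cancel (by norm_num) (by norm_num), one_pow, one_mul]

noncomputable def x0 : X := ⟨fun i => (0, (1 / 4) ^ i), memℓp_gen (by
  simpa [Prod.norm_def] using summable_geometric_of_lt_one (r := 4⁻¹) (by norm_num) (by norm_num))⟩

lemma Mmono : StrictMono M := fun a b h =>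
  Nat.pow_lt_pow_right one_lt_two (by nlinarith [Nat.pow_le_pow_left h.le 2])

theorem result : ∃ (E : Type) (_ : NormedAddCommGroup E) (_ : NormedSpace ℝ E)
    (_ : CompleteSpace E) (m : ℕ → ℝ) (T : E →L[ℝ] E) (E₀ : Submodule ℝ E),
    StrictMono m ∧ (∀ n, 1 ≤ m n) ∧ (∀ n : ℕ, (n : ℝ) ≤ m n) ∧ Dense (E₀ : Set E) ∧
    (∀ x ∈ E₀, Tendsto (fun n => (T ^ n) x) atTop (𝓝 0)) ∧
    MDC (fun n => n) T ∧ ¬ MDC m T := by
  let E₀ := Submodule.span ℝ (⋃ i, range (lp.single (E := fun _ : ℕ => ℝ × ℝ) 1 i))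
  have hd : Dense (E₀ : Set X) := fun v =>
    mem_closure_of_tendsto (lp.hasSum_single (by simp) v) (Eventually.of_forall fun s =>
      E₀.sum_mem fun i _ => Submodule.subset_span (mem_iUnion.2 ⟨i, _, rfl⟩))
  refine ⟨X, inferInstance, inferInstance, inferInstance, fun n => M n, T, E₀,
    fun a b h => Nat.cast_lt.2 (Mmono h), fun n => Nat.one_le_cast.2 Nat.one_le_two_pow,
    fun n => Nat.cast_le.2 Mmono.le_apply, hd, fun v hv => ?_, ?_, ?_⟩
  · induction hv using Submodule.span_induction with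
    | mem v hv =>
      obtain ⟨i, w, rfl⟩ := mem_iUnion.1 hv
      refine squeeze_zero_norm' (a := fun n : ℕ => 3 * 16 ^ i * p i / n * ‖w‖) ?_ (by
        simpa using (tendsto_const_div_atTop_nhds_zero_nat (3 * 16 ^ i * p i)).mul_const ‖w‖)
      filter_upwards [eventually_gt_atTop 0] with n hn
      have : (T ^ n) (lp.single 1 i w) = lp.single 1 i (B i n w) := by
        ext1; funext k
        rw [Tpow]
        by_cases hk : k = i
        · subst hk; simp
        · rw [lp.single_apply_ne _ _ _ hk, lp.single_apply_ne _ _ _ hk]; simp [B]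
      rw [this, lp.norm_single (by simp)]
      exact (B_le _ _ _).trans (mul_le_mul_of_nonneg_right (ph2 _ _ hn) (norm_nonneg _))
    | zero => simp
    | add a b _ _ ha hb => simpa using ha.add hb
    | smul c a _ ha => simpa using ha.const_smul c
  · have hx : x0 ≠ 0 := fun h => by
      have := congrArg (fun v : X => (v 0).2) h
      simp [x0] at this
    refine ⟨range fun t : ℝ => t • x0, fun h => ?_, 1, one_pos, ?_⟩
    · exact Cardinal.not_countable_real (by
        simpa using h.preimage_of_injOn (smul_left_injective ℝ hx).injOn)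
    rintro ε hε _ ⟨s, rfl⟩ _ ⟨t, rfl⟩ hst
    have hτ : 0 < |s - t| := abs_pos.2 (sub_ne_zero.2 fun h => hst (by rw [h]))
    have e : ∀ j, dist ((T ^ j) (s • x0)) ((T ^ j) (t • x0)) = |s - t| * ‖(T ^ j) x0‖ := fun j => by
      rw [dist_eq_norm, ← map_sub, ← sub_smul, map_smul, norm_smul, Real.norm_eq_abs]
    simp only [e]
    constructor
    · refine lz _ (fun i => 2 ^ (5 * i ^ 2)) (fun i => Nat.one_le_two_pow) ?_
      filter_upwards [(tendsto_pow_atTop_atTop_of_one_lt (one_lt_two (α := ℝ))).eventually_ge_atTop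
        (Real.exp 1 / |s - t|)] with i hi j hj h2
      by_contra h1
      have h1' : (2 : ℝ) ^ (5 * i ^ 2) ≤ j := by exact_mod_cast (not_le.1 h1).le
      have h2' : (j : ℝ) ≤ p i := by rw [p, pow_add, mul_comm]; exact_mod_cast h2
      have a1 := (norm_fst_le _).trans (lp.norm_apply_le_norm (by simp) ((T ^ j) x0) i)
      rw [Tpow] at a1
      have a2 : Real.exp (-1) ≤ Real.exp (-(j / p i)) :=
        Real.exp_le_exp.2 (neg_le_neg ((div_le_one (p0 i)).2 h2'))
      have a3 : (2 : ℝ) ^ i ≤ 0 + 16 ^ i * (j / p i) * (1 / 4) ^ i := by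
        have : (2 : ℝ) ^ i = 16 ^ i * (2 ^ (5 * i ^ 2) / p i) * (1 / 4) ^ i := by
          rw [p, pow_add, show (16 : ℝ) = 2 * 2 * 4 by norm_num, mul_pow, mul_pow, one_div, inv_pow]
          field_simp
        rw [this, zero_add]
        have := p0 i
        gcongr
      have a4 := (mul_le_mul a2 a3 (by positivity) (Real.exp_pos _).le).trans
        ((le_abs_self _).trans a1)
      rw [div_le_iff₀ hτ] at hi
      have a5 : Real.exp (-1) * Real.exp 1 = 1 := by rw [← Real.exp_add]; simp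
      have hj' : |s - t| * ‖(T ^ j) x0‖ < 1 := hj
      nlinarith [Real.exp_pos (-1)]
    · refine lz _ M (fun i => Nat.one_le_two_pow) ?_
      have hl := ((tendsto_pow_atTop_nhds_zero_of_lt_one (r := (1 / 2 : ℝ)) (by norm_num)
        (by norm_num)).const_mul 3).mul_const 2 |>.const_mul |s - t|
      simp only [mul_zero, zero_mul] at hl
      filter_upwards [hl.eventually (gt_mem_nhds hε)] with i hi j hj h2
      by_contra h1
      have a1 : ‖(T ^ j) x0‖ ≤ 3 * (1 / 2) ^ i * 2 := by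
        refine hasSum_le (fun k => ?_) (hs1 ((T ^ j) x0))
          (hasSum_geometric_two.mul_left _)
        rw [Tpow]
        refine (B_le _ _ _).trans (le_trans (le_of_eq ?_) (gap i j k (not_le.1 h1).le h2).2)
        simp [x0, Prod.norm_def]
      exact absurd (hj.trans (mul_le_mul_of_nonneg_left a1 hτ.le)) (not_le.2 hi)
  · rintro ⟨S, hS, σ, hσ, h⟩
    haveI : TopologicalSpace.SeparableSpace X := TopologicalSpace.isSeparable_univ_iff.1 (by
      rw [← hd.closure_eq]
      exact (TopologicalSpace.IsSeparable.iUnion fun i =>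
        TopologicalSpace.isSeparable_range (lp.isometry_single i).continuous).span.closure)
    obtain ⟨x, hx, y, hy, hxy, hlt⟩ : ∃ x ∈ S, ∃ y ∈ S, x ≠ y ∧ dist x y < σ / 3 := by
      by_contra hc
      push Not at hc
      refine hS (PairwiseDisjoint.countable_of_isOpen (s := fun x => Metric.ball x (σ / 6))
        (fun x hx y hy hxy => Metric.ball_disjoint_ball (by linarith [hc x hx y hy hxy]))
        (fun _ _ => Metric.isOpen_ball) fun _ _ => Metric.nonempty_ball.2 (by linarith))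
    have h1 := (h 1 one_pos x hx y hy hxy).1
    have h2 : ∀ k, dist ((T ^ M k) x) ((T ^ M k) y) < σ := by
      intro k
      rw [dist_eq_norm] at hlt
      rw [dist_eq_norm, ← map_sub]
      have : ‖(T ^ M k) (x - y)‖ ≤ ‖(3 : ℝ) • (x - y)‖ := lp.norm_mono (by simp) fun i => by
        rw [Tpow, lp.coeFn_smul, Pi.smul_apply, norm_smul, Real.norm_ofNat]
        exact (B_le _ _ _).trans (mul_le_mul_of_nonneg_right (gap k _ i le_rfl
          (Nat.le_mul_of_pos_left _ (by positivity))).1 (norm_nonneg _))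
      rw [norm_smul, Real.norm_ofNat] at this
      linarith
    refine absurd (le_trans (le_liminf_of_le (a := 1) (by isBoundedDefault) ?_) h1.le) (by simp)
    filter_upwards [eventually_gt_atTop 0] with n hn
    rw [ENNReal.le_div_iff_mul_le (by simp [hn.ne']) (by simp), one_mul, Nat.cast_le]
    refine le_trans (le_of_eq ?_) (Finset.card_le_card (s := (Finset.range n).image M) ?_)
    · rw [Finset.card_image_of_injective _ Mmono.injective, Finset.card_range]
    · intro j hj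
      obtain ⟨k, hk, rfl⟩ := Finset.mem_image.1 hj
      simp only [Nat.floor_natCast, Finset.mem_filter, Finset.mem_Icc]
      exact ⟨⟨Nat.one_le_two_pow, Mmono.monotone (Finset.mem_range.1 hk).le⟩, h2 k⟩

end Pool.Agent.Results.MP_890ea4_an.Counter
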